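import Mathlib
import Pool.Agent.N99.RF3.Curve

set_option autoImplicit false
open scoped ContDiff Manifold Topology Matrix RealInnerProductSpace
open Set
open Pool.Agent.N535

namespace Pool.Agent.N99.RF3

/-- the north pole -/
noncomputable def NP : E4 := EuclideanSpace.single 0 1

lemma NP_norm : ‖NP‖ = 1 := by simp [NP]

lemma inner_NP (p : E4) : ⟪NP, p⟫ = p 0 := by
  rw [NP, EuclideanSpace.inner_single_left]; simp

lemma dist_NP {p : E4} (hp : ‖p‖ = 1) : ‖p - NP‖ = Real.sqrt (2 - 2 * p 0) := by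
  have h1 : ‖p - NP‖ ^ 2 = 2 - 2 * p 0 := by
    rw [norm_sub_sq_real, hp, NP_norm, real_inner_comm, inner_NP]; ring
  rw [← h1, Real.sqrt_sq (norm_nonneg _)]

lemma coord_mem {p : E4} (hp : ‖p‖ = 1) : p 0 ∈ Icc (-1 : ℝ) 1 := by
  have h1 : |⟪NP, p⟫| ≤ ‖NP‖ * ‖p‖ := abs_real_inner_le_norm _ _
  rw [inner_NP, NP_norm, hp, abs_le] at h1
  constructor <;> linarith [h1.1, h1.2]

/-- great circle -/
noncomputable def gc (q u : E4) (s : ℝ) : E4 := Real.cos s • q + Real.sin s • u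

/-- orthonormal pairs -/
structure ON (q u : E4) : Prop where
  q1 : ‖q‖ = 1
  u1 : ‖u‖ = 1
  qu : ⟪q, u⟫ = 0

lemma gc_norm {q u : E4} (h : ON q u) (s : ℝ) : ‖gc q u s‖ = 1 := by
  have h1 : ‖gc q u s‖ ^ 2 = 1 := by
    unfold gc
    rw [norm_add_sq_real, norm_smul, norm_smul, inner_smul_left, inner_smul_right, h.q1, h.u1, h.qu]
    simp
  nlinarith [norm_nonneg (gc q u s)]

/-- great circle as a curve in the sphere -/
noncomputable def gcs (q u : E4) (h : ON q u) (s : ℝ) : S3 := ⟨gc q u s, by simpa using gc_norm h s⟩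

lemma gcs_coe {q u : E4} (h : ON q u) (s : ℝ) : ((gcs q u h s : S3) : E4) = gc q u s := rfl

lemma hasDerivAt_gc (q u : E4) (s : ℝ) :
    HasDerivAt (gc q u) (-Real.sin s • q + Real.cos s • u) s :=
  ((Real.hasDerivAt_cos s).smul_const q).add ((Real.hasDerivAt_sin s).smul_const u)

lemma gc_deriv_norm {q u : E4} (h : ON q u) (s : ℝ) : ‖-Real.sin s • q + Real.cos s • u‖ = 1 := by
  have h1 : ‖-Real.sin s • q + Real.cos s • u‖ ^ 2 = 1 := by
    rw [norm_add_sq_real, norm_smul, norm_smul, inner_smul_left, inner_smul_right, h.q1, h.u1, h.qu]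
    simp
  nlinarith [norm_nonneg (-Real.sin s • q + Real.cos s • u)]

lemma contDiff_gc (q u : E4) : ContDiff ℝ ∞ (gc q u) := by
  unfold gc
  exact (Real.contDiff_cos.smul contDiff_const).add (Real.contDiff_sin.smul contDiff_const)

lemma gcs_mdiff {q u : E4} (h : ON q u) (s : ℝ) :
    MDifferentiableAt 𝓘(ℝ, ℝ) (𝓡 3) (gcs q u h) s := by
  have h1 : ContMDiff 𝓘(ℝ, ℝ) 𝓘(ℝ, E4) ∞ (gc q u) := (contDiff_gc q u).contMDiff
  have h2 := h1.codRestrict_sphere (n := 3) (fun s => by simpa using gc_norm h s)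
  exact (h2.mdifferentiableAt (by norm_num))

lemma diff_coe {ψ : ℝ → S3} {s : ℝ} (hψ : MDifferentiableAt 𝓘(ℝ, ℝ) (𝓡 3) ψ s) :
    ∃ v : E4, HasDerivAt (fun t => (ψ t : E4)) v s := ⟨_, hasDerivAt_coe hψ⟩

end Pool.Agent.N99.RF3
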