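import Mathlib
import Pool.Agent.N99.RF3.Gc

set_option autoImplicit false
open scoped ContDiff Manifold Topology Matrix RealInnerProductSpace
open Set
open Pool.Agent.N535

namespace Pool.Agent.N99.RF3

/-- the standing assumptions -/
structure Data (a b η ε r : ℝ) (h : ℝ → ℝ) (φ : S3 ≃ₘ^∞⟮𝓡 3, 𝓡 3⟯ S3) : Prop where
  ha : 0 < a
  hr : 0 < r
  hη : 0 ≤ η
  hη1 : η < 1
  hε : 0 ≤ ε
  hε1 : ε ≤ 1 / 2
  low : ∀ p : E4, ‖p‖ = 1 → (1 - η) * (1 + a * (r / (r + ‖p - NP‖))) ≤ h (p 0)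
  up : ∀ p : E4, ‖p‖ = 1 → h (p 0) ≤ (1 + η) * (1 + b * (r / (r + ‖p - NP‖)))
  hyp : ∀ (p : S3) (u : TangentSpace (𝓡 3) p), u ≠ 0 →
      |h ((φ p : E4) 0) ^ 2 * rsq (φ p) (mfderiv (𝓡 3) (𝓡 3) φ p u) - rsq p u| < ε * rsq p u

variable {a b η ε r : ℝ} {h : ℝ → ℝ} {φ : S3 ≃ₘ^∞⟮𝓡 3, 𝓡 3⟯ S3}

lemma norm_S3 (p : S3) : ‖(p : E4)‖ = 1 := by simp

lemma Data.h_pos (D : Data a b η ε r h φ) {p : E4} (hp : ‖p‖ = 1) : 0 < h (p 0) := by
  refine lt_of_lt_of_le ?_ (D.low p hp)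
  have h1 := D.ha
  have h2 := D.hr
  have h3 := D.hη1
  have : 0 < r / (r + ‖p - NP‖) := by positivity
  have : 0 < 1 - η := by linarith
  positivity

lemma Data.fwd_speed (D : Data a b η ε r h φ) {q u : E4} (hqu : ON q u) (s : ℝ) {w : E4}
    (hw : HasDerivAt (fun t => (φ (gcs q u hqu t) : E4)) w s) :
    h ((φ (gcs q u hqu s) : E4) 0) * ‖w‖ ≤ 1 + ε := by
  have h1 := curve_ineq φ D.hyp (gcs_mdiff hqu s) (hasDerivAt_gc q u s) hw
  rw [gc_deriv_norm hqu, abs_le] at h1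
  have h2 := D.h_pos (norm_S3 (φ (gcs q u hqu s)))
  have h3 : (h ((φ (gcs q u hqu s) : E4) 0) * ‖w‖) ^ 2 ≤ (1 + ε) ^ 2 := by
    nlinarith [h1.2, D.hε]
  exact le_of_sq_le_sq h3 (by linarith [D.hε]) 
  

lemma Data.fwd (D : Data a b η ε r h φ) {q u : E4} (hqu : ON q u)
    (hq : (φ (gcs q u hqu 0) : E4) = NP) {ρ : ℝ} (h0 : 0 < ρ) (hρ : ρ < Real.pi) :
    (1 - η) * (‖(φ (gcs q u hqu ρ) : E4) - NP‖ +
      a * r * Real.log (1 + ‖(φ (gcs q u hqu ρ) : E4) - NP‖ / r)) ≤ (1 + ε) * ρ := by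
  have hr := D.hr
  have ha := D.ha
  have hη1 := D.hη1
  have hε := D.hε
  set c : ℝ → E4 := fun t => (φ (gcs q u hqu t) : E4) with hc
  have hcd : ∀ s, ∃ w, HasDerivAt c w s := by
    intro s
    have hφ : MDifferentiableAt (𝓡 3) (𝓡 3) φ (gcs q u hqu s) :=
      φ.contMDiff.mdifferentiableAt (by norm_num)
    exact diff_coe (ψ := fun t => φ (gcs q u hqu t)) (hφ.comp s (gcs_mdiff hqu s))
  have hcc : Continuous c := continuous_iff_continuousAt.mpr fun s => (hcd s).choose_spec.continuousAt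
  have hDc : Continuous fun s => ‖c s - NP‖ := (hcc.sub continuous_const).norm
  set F : ℝ → ℝ := fun s => (1 + ε) * s -
    (1 - η) * (‖c s - NP‖ + a * r * Real.log (1 + ‖c s - NP‖ / r)) with hF
  have hFc : Continuous F := by
    refine (continuous_const.mul continuous_id).sub (continuous_const.mul (hDc.add
      (continuous_const.mul (Continuous.log ?_ ?_))))
    · exact continuous_const.add (hDc.div_const r)
    · intro s
      have : 0 ≤ ‖c s - NP‖ / r := by positivity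
      linarith
  have hne : ∀ s ∈ Ioo 0 ρ, c s ≠ NP := by
    intro s hs e
    have e1 : φ (gcs q u hqu s) = φ (gcs q u hqu 0) := by
      apply Subtype.ext
      rw [hq]; exact e
    have e2 := φ.injective e1
    have e3 : gc q u s = gc q u 0 := congrArg Subtype.val e2
    have e4 : ⟪u, gc q u s⟫ = ⟪u, gc q u 0⟫ := by rw [e3]
    unfold gc at e4
    rw [inner_add_right, inner_add_right, inner_smul_right, inner_smul_right, inner_smul_right,
      inner_smul_right, real_inner_comm, hqu.qu, real_inner_self_eq_norm_sq, hqu.u1] at e4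
    simp at e4
    have := Real.sin_pos_of_pos_of_lt_pi hs.1 (hs.2.trans hρ)
    linarith
  have hFd : ∀ s ∈ Ioo 0 ρ, ∃ F' : ℝ, HasDerivAt F F' s ∧ 0 ≤ F' := by
    intro s hs
    obtain ⟨w, hw⟩ := hcd s
    have hpos : 0 < ‖c s - NP‖ := by
      rw [norm_pos_iff, sub_ne_zero]; exact hne s hs
    have d1 : HasDerivAt (fun t => ‖c t - NP‖ ^ 2) (2 * ⟪c s - NP, w⟫) s :=
      (hw.sub_const NP).norm_sq
    have d2 : HasDerivAt (fun t => ‖c t - NP‖) (2 * ⟪c s - NP, w⟫ / (2 * ‖c s - NP‖)) s := by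
      have := d1.sqrt (by positivity)
      simp only [Real.sqrt_sq (norm_nonneg _)] at this
      exact this
    set D' := 2 * ⟪c s - NP, w⟫ / (2 * ‖c s - NP‖) with hD'
    have hD'le : D' ≤ ‖w‖ := by
      rw [hD', div_le_iff₀ (by positivity)]
      have := real_inner_le_norm (c s - NP) w
      nlinarith
    have d3 : HasDerivAt (fun t => Real.log (1 + ‖c t - NP‖ / r))
        ((D' / r) / (1 + ‖c s - NP‖ / r)) s := by
      have := ((d2.div_const r).const_add 1).log (by positivity)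
      exact this
    have d4 : HasDerivAt F ((1 + ε) * 1 - (1 - η) * (D' + a * r * ((D' / r) / (1 + ‖c s - NP‖ / r)))) s :=
      ((hasDerivAt_id s).const_mul (1 + ε)).sub ((d2.add (d3.const_mul (a * r))).const_mul (1 - η))
    refine ⟨_, d4, ?_⟩
    have e1 : (1 - η) * (D' + a * r * ((D' / r) / (1 + ‖c s - NP‖ / r))) =
        (1 - η) * (1 + a * (r / (r + ‖c s - NP‖))) * D' := by
      field_simp
    have l1 : (1 - η) * (1 + a * (r / (r + ‖c s - NP‖))) ≤ h (c s 0) :=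
      D.low (c s) (norm_S3 _)
    have l2 : h (c s 0) * ‖w‖ ≤ 1 + ε := D.fwd_speed hqu s hw
    have l3 : 0 ≤ (1 - η) * (1 + a * (r / (r + ‖c s - NP‖))) := by
      have : 0 ≤ 1 - η := by linarith
      positivity
    rw [e1]
    have l4 : (1 - η) * (1 + a * (r / (r + ‖c s - NP‖))) * D' ≤ h (c s 0) * ‖w‖ :=
      (mul_le_mul_of_nonneg_left hD'le l3).trans
        (mul_le_mul_of_nonneg_right l1 (norm_nonneg w))
    linarith
  have hmono : MonotoneOn F (Icc 0 ρ) := by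
    apply monotoneOn_of_deriv_nonneg (convex_Icc 0 ρ) hFc.continuousOn
    · intro s hs
      rw [interior_Icc] at hs
      obtain ⟨F', h1, _⟩ := hFd s hs
      exact h1.differentiableAt.differentiableWithinAt
    · intro s hs
      rw [interior_Icc] at hs
      obtain ⟨F', h1, h2⟩ := hFd s hs
      rw [h1.deriv]; exact h2
  have h5 := hmono (left_mem_Icc.mpr h0.le) (right_mem_Icc.mpr h0.le) h0.le
  have h6 : F 0 = 0 := by
    simp only [hF]
    have : c 0 = NP := hq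
    rw [this]; simp
  rw [h6] at h5
  simp only [hF] at h5
  linarith

end Pool.Agent.N99.RF3
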