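import Mathlib
import Pool.Agent.N99.RF3.Fwd

set_option autoImplicit false
open scoped ContDiff Manifold Topology Matrix RealInnerProductSpace
open Set
open Pool.Agent.N535

namespace Pool.Agent.N99.RF3

variable {a b η ε r : ℝ} {h : ℝ → ℝ} {φ : S3 ≃ₘ^∞⟮𝓡 3, 𝓡 3⟯ S3}

lemma Data.bwd (D : Data a b η ε r h φ) {q u : E4} (hqu : ON q u) {θ M : ℝ} (hθ : 0 ≤ θ)
    (hM : ∀ t ∈ Icc 0 θ, h (gc q u t 0) ≤ M) :
    ‖(φ.symm (gcs q u hqu θ) : E4) - (φ.symm (gcs q u hqu 0) : E4)‖ ≤ (1 + ε) * M * θ := by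
  have hε := D.hε
  have hε1 := D.hε1
  set ψ : ℝ → S3 := fun t => φ.symm (gcs q u hqu t) with hψ
  have hψd : ∀ s, MDifferentiableAt 𝓘(ℝ, ℝ) (𝓡 3) ψ s := by
    intro s
    have hφ : MDifferentiableAt (𝓡 3) (𝓡 3) φ.symm (gcs q u hqu s) :=
      φ.symm.contMDiff.mdifferentiableAt (by norm_num)
    exact hφ.comp s (gcs_mdiff hqu s)
  have hM0 : 0 ≤ M := by
    have := D.h_pos (gc_norm hqu 0)
    linarith [hM 0 ⟨le_rfl, hθ⟩]
  choose v hv using fun s => diff_coe (hψd s)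
  have hb : ∀ t ∈ Icc 0 θ, ‖v t‖ ≤ (1 + ε) * M := by
    intro t ht
    have e1 : (fun s => (φ (ψ s) : E4)) = gc q u := by
      funext s
      simp only [hψ, φ.apply_symm_apply]
      rfl
    have hw : HasDerivAt (fun s => (φ (ψ s) : E4)) (-Real.sin t • q + Real.cos t • u) t := by
      rw [e1]; exact hasDerivAt_gc q u t
    have h1 := curve_ineq φ D.hyp (hψd t) (hv t) hw
    rw [gc_deriv_norm hqu, abs_le] at h1
    have e2 : (φ (ψ t) : E4) = gc q u t := congrFun e1 t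
    rw [e2] at h1
    have h2 := D.h_pos (gc_norm hqu t)
    have h3 := hM t ht
    have h4 : ‖v t‖ ^ 2 * (1 - ε) ≤ M ^ 2 := by nlinarith [h1.1]
    have h5 : 0 ≤ ε * (1 - ε - ε ^ 2) := mul_nonneg hε (by nlinarith)
    have h6 : ‖v t‖ ^ 2 ≤ ((1 + ε) * M) ^ 2 := by
      have : 1 ≤ (1 + ε) ^ 2 * (1 - ε) := by nlinarith
      have h7 : ‖v t‖ ^ 2 * 1 ≤ ‖v t‖ ^ 2 * ((1 + ε) ^ 2 * (1 - ε)) :=
        mul_le_mul_of_nonneg_left this (by positivity)
      have h8 : (1 + ε) ^ 2 * (‖v t‖ ^ 2 * (1 - ε)) ≤ (1 + ε) ^ 2 * M ^ 2 :=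
        mul_le_mul_of_nonneg_left h4 (by positivity)
      nlinarith
    exact le_of_sq_le_sq h6 (by positivity)
  have := Convex.norm_image_sub_le_of_norm_hasDerivWithin_le (f := fun t => (ψ t : E4)) (f' := v)
    (C := (1 + ε) * M) (s := Icc 0 θ) (x := 0) (y := θ)
    (fun t ht => (hv t).hasDerivWithinAt) hb (convex_Icc 0 θ) (left_mem_Icc.mpr hθ)
    (right_mem_Icc.mpr hθ)
  simpa [abs_of_nonneg hθ] using this

/-- the shortest great circle between two points -/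
lemma path {p q : E4} (hp : ‖p‖ = 1) (hq : ‖q‖ = 1) (hne : p ≠ q) (hd : ‖p - q‖ ≤ 1) :
    ∃ (θ : ℝ) (w : E4), ON p w ∧ 0 < θ ∧ θ ≤ ‖p - q‖ * (1 + ‖p - q‖ ^ 2 / 5) ∧
      gc p w θ = q ∧ ∀ t ∈ Icc 0 θ, ∃ α β : ℝ, 0 ≤ α ∧ 0 ≤ β ∧ 1 ≤ α + β ∧
        gc p w t = α • p + β • q := by
  set δ := ‖p - q‖ with hδ
  have hδ0 : 0 < δ := norm_pos_iff.mpr (sub_ne_zero.mpr hne)
  set x := Real.arcsin (δ / 2) with hx
  have hsx : Real.sin x = δ / 2 := Real.sin_arcsin (by linarith) (by linarith)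
  have hx0 : 0 < x := Real.arcsin_pos.mpr (by linarith)
  have hxpi : x ≤ Real.pi / 2 := Real.arcsin_le_pi_div_two _
  have hx1 : x ≤ 4 / 5 * δ := by
    have h1 := Real.mul_le_sin hx0.le hxpi
    rw [hsx, div_mul_eq_mul_div, div_le_iff₀ Real.pi_pos] at h1
    nlinarith [Real.pi_lt_d2]
  have hx2 : x ≤ 1 := by linarith
  have hx3 : x - x ^ 3 / 4 < δ / 2 := by
    rw [← hsx]
    have h1 := Real.sin_gt_sub_cube hx0
    have h2 : 0 < x ^ 3 := by positivity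
    linarith
  have hθ : 2 * x ≤ δ * (1 + δ ^ 2 / 5) := by
    have h1 : x ^ 2 ≤ 16 / 25 * δ ^ 2 := by nlinarith
    have h2 : x * (1 - 4 / 25 * δ ^ 2) ≤ δ / 2 := by nlinarith
    have h3 : 1 ≤ (1 + δ ^ 2 / 5) * (1 - 4 / 25 * δ ^ 2) := by
      have : δ ^ 2 ≤ 1 := by nlinarith
      nlinarith [sq_nonneg δ]
    have h4 : x * 1 ≤ x * ((1 + δ ^ 2 / 5) * (1 - 4 / 25 * δ ^ 2)) :=
      mul_le_mul_of_nonneg_left h3 hx0.le
    have h5 : (1 + δ ^ 2 / 5) * (x * (1 - 4 / 25 * δ ^ 2)) ≤ (1 + δ ^ 2 / 5) * (δ / 2) :=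
      mul_le_mul_of_nonneg_left h2 (by positivity)
    nlinarith
  have hcos : Real.cos (2 * x) = ⟪p, q⟫ := by
    have h1 : δ ^ 2 = 2 - 2 * ⟪p, q⟫ := by
      rw [hδ, norm_sub_sq_real, hp, hq]; ring
    rw [Real.cos_two_mul, Real.cos_sq', hsx]
    linarith
  have hspos : 0 < Real.sin (2 * x) :=
    Real.sin_pos_of_pos_of_lt_pi (by linarith) (by nlinarith [Real.pi_gt_d2])
  have hs2 : Real.sin (2 * x) ^ 2 = 1 - ⟪p, q⟫ ^ 2 := by
    rw [Real.sin_sq, hcos]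
  set w : E4 := (Real.sin (2 * x))⁻¹ • (q - Real.cos (2 * x) • p) with hw
  have hon : ON p w := by
    refine ⟨hp, ?_, ?_⟩
    · have h1 : ‖q - Real.cos (2 * x) • p‖ ^ 2 = Real.sin (2 * x) ^ 2 := by
        rw [norm_sub_sq_real, norm_smul, inner_smul_right, real_inner_comm, hp, hq, ← hcos,
          hs2, ← hcos, mul_one, Real.norm_eq_abs, sq_abs]; ring
      have h2 : ‖q - Real.cos (2 * x) • p‖ = Real.sin (2 * x) := by
        have := (sq_eq_sq₀ (norm_nonneg _) hspos.le).mp h1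
        exact this
      rw [hw, norm_smul, h2, norm_inv, Real.norm_of_nonneg hspos.le, inv_mul_cancel₀ hspos.ne']
    · rw [hw, inner_smul_right, inner_sub_right, inner_smul_right, real_inner_self_eq_norm_sq,
        hp, hcos]
      ring
  refine ⟨2 * x, w, hon, by linarith, hθ, ?_, ?_⟩
  · unfold gc
    rw [hw, smul_smul, mul_inv_cancel₀ hspos.ne', one_smul]
    abel
  · intro t ht
    have ht2 : t ≤ 2 * x := ht.2
    have hpi : 2 * x < Real.pi := by nlinarith [Real.pi_gt_d2]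
    have hs1 : 0 ≤ Real.sin t := Real.sin_nonneg_of_nonneg_of_le_pi ht.1 (by linarith)
    have hs3 : 0 ≤ Real.sin (2 * x - t) :=
      Real.sin_nonneg_of_nonneg_of_le_pi (by linarith) (by linarith [ht.1])
    refine ⟨Real.sin (2 * x - t) / Real.sin (2 * x), Real.sin t / Real.sin (2 * x),
      by positivity, by positivity, ?_, ?_⟩
    · rw [← add_div, le_div_iff₀ hspos, one_mul]
      have h1 : Real.sin (2 * x) = Real.sin (2 * x - t) * Real.cos t +
          Real.cos (2 * x - t) * Real.sin t := by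
        rw [← Real.sin_add]; ring_nf
      rw [h1]
      have h2 := Real.cos_le_one t
      have h3 := Real.cos_le_one (2 * x - t)
      nlinarith
    · unfold gc
      rw [hw, smul_smul, smul_sub, smul_smul]
      have h1 : Real.sin (2 * x - t) / Real.sin (2 * x) =
          Real.cos t - Real.sin t * (Real.sin (2 * x))⁻¹ * Real.cos (2 * x) := by
        rw [Real.sin_sub]
        field_simp
      rw [h1, sub_smul, ← div_eq_mul_inv]
      abel

end Pool.Agent.N99.RF3
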