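import Mathlib
import Pool.Agent.N99.RF3.Bwd

set_option autoImplicit false
open scoped ContDiff Manifold Topology Matrix RealInnerProductSpace
open Set
open Pool.Agent.N535

namespace Pool.Agent.N99.RF3

lemma rho_le {τ R ρ : ℝ} (hτ0 : 0 < τ) (hτ : τ ≤ 1 / 1000) (hR : 0 < R)
    (hρ : ρ * (1 + τ / 100) = (1 - τ / 100) * (1 + τ) * R) :
    0 < ρ ∧ ρ ≤ 101 / 100 * R ∧ 99 / 100 * R ≤ ρ := by
  have h0 : 0 < ρ := by
    have : 0 < (1 - τ / 100) * (1 + τ) * R := by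
      have : 0 < 1 - τ / 100 := by linarith
      positivity
    rw [← hρ] at this
    exact (pos_iff_pos_of_mul_pos this).mpr (by positivity)
  refine ⟨h0, ?_, ?_⟩
  · have h1 : (1 - τ / 100) * (1 + τ) ≤ 101 / 100 := by nlinarith
    have h2 : (1 - τ / 100) * (1 + τ) * R ≤ 101 / 100 * R := mul_le_mul_of_nonneg_right h1 hR.le
    nlinarith
  · have h1 : 1 + τ / 100 ≤ (1 - τ / 100) * (1 + τ) := by nlinarith
    have h2 : (1 + τ / 100) * R ≤ (1 - τ / 100) * (1 + τ) * R := mul_le_mul_of_nonneg_right h1 hR.le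
    rw [← hρ] at h2
    have h3 : R ≤ ρ := by
      by_contra hc
      push Not at hc
      have : ρ * (1 + τ / 100) < R * (1 + τ / 100) := mul_lt_mul_of_pos_right hc (by positivity)
      linarith
    linarith

lemma num2 {τ R ρ s : ℝ} (hτ0 : 0 < τ) (hτ : τ ≤ 1 / 1000) (hR : 0 < R) (hR2 : R ^ 2 ≤ τ / 100)
    (hρ : ρ * (1 + τ / 100) = (1 - τ / 100) * (1 + τ) * R) (hsin : ρ - ρ ^ 3 / 6 ≤ s)
    (hs : s ≤ (1 + τ / 100) * ((1 + τ / 100) * (1 + τ / 3)) * (R * (1 + R ^ 2))) : False := by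
  obtain ⟨h0, h1, h2⟩ := rho_le hτ0 hτ hR hρ
  have h3 : ρ ^ 2 ≤ 6 / 5 * R ^ 2 := by nlinarith
  have h4 : ρ * (1 - R ^ 2 / 5) ≤ s := by nlinarith
  have h5 : ρ * (1 + τ / 100) * (1 - R ^ 2 / 5) ≤
      (1 + τ / 100) ^ 3 * (1 + τ / 3) * (R * (1 + R ^ 2)) := by
    have : ρ * (1 - R ^ 2 / 5) * (1 + τ / 100) ≤
        (1 + τ / 100) * ((1 + τ / 100) * (1 + τ / 3)) * (R * (1 + R ^ 2)) * (1 + τ / 100) :=
      mul_le_mul_of_nonneg_right (h4.trans hs) (by positivity)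
    nlinarith
  rw [hρ] at h5
  have h6 : (1 - τ / 100) * (1 + τ) * (1 - R ^ 2 / 5) ≤
      (1 + τ / 100) ^ 3 * (1 + τ / 3) * (1 + R ^ 2) := by
    have : R * ((1 - τ / 100) * (1 + τ) * (1 - R ^ 2 / 5)) ≤
      R * ((1 + τ / 100) ^ 3 * (1 + τ / 3) * (1 + R ^ 2)) := by nlinarith
    exact le_of_mul_le_mul_left this hR
  have h7 : (1 - τ / 100) * (1 + τ) * (1 - τ / 500) ≤ (1 - τ / 100) * (1 + τ) * (1 - R ^ 2 / 5) := by
    apply mul_le_mul_of_nonneg_left _ _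
    · linarith
    · have : 0 < 1 - τ / 100 := by linarith
      positivity
  have h8 : (1 + τ / 100) ^ 3 * (1 + τ / 3) * (1 + R ^ 2) ≤
      (1 + τ / 100) ^ 3 * (1 + τ / 3) * (1 + τ / 100) := by
    apply mul_le_mul_of_nonneg_left _ (by positivity)
    linarith
  have h9 : (1 + τ / 100) ^ 3 * (1 + τ / 3) * (1 + τ / 100) < (1 - τ / 100) * (1 + τ) * (1 - τ / 500) := by
    have e1 : (1 + τ / 100) ^ 2 ≤ 1 + τ / 40 := by nlinarith
    have e2 : (1 + τ / 40) ^ 2 ≤ 1 + τ / 19 := by nlinarith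
    have e3 : (1 + τ / 100) ^ 3 * (1 + τ / 100) ≤ 1 + τ / 19 := by
      have : ((1 + τ / 100) ^ 2) ^ 2 ≤ (1 + τ / 40) ^ 2 := by
        apply pow_le_pow_left₀ (by positivity) e1
      nlinarith
    have e4 : (1 + τ / 100) ^ 3 * (1 + τ / 3) * (1 + τ / 100) ≤ (1 + τ / 19) * (1 + τ / 3) := by
      have := mul_le_mul_of_nonneg_right e3 (show (0:ℝ) ≤ 1 + τ / 3 by positivity)
      nlinarith
    have e5 : (1 + τ / 19) * (1 + τ / 3) ≤ 1 + τ / 2 := by nlinarith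
    have e6 : 1 + 9 / 10 * τ ≤ (1 - τ / 100) * (1 + τ) * (1 - τ / 500) := by
      have : 1 + 95 / 100 * τ ≤ (1 - τ / 100) * (1 + τ) := by nlinarith
      have h := mul_le_mul_of_nonneg_right this (show (0:ℝ) ≤ 1 - τ / 500 by linarith)
      nlinarith
    linarith
  linarith

/-- among three vectors two have an angle of at most 120 degrees -/
lemma pair (X : Fin 3 → E4) : ∃ i j, i ≠ j ∧ -(‖X i‖ * ‖X j‖) / 2 ≤ ⟪X i, X j⟫ := by
  by_contra hc
  push Not at hc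
  have hpos : ∀ i, 0 < ‖X i‖ := by
    intro i
    rw [norm_pos_iff]
    intro h0
    obtain ⟨j, hj⟩ : ∃ j : Fin 3, i ≠ j := by
      fin_cases i
      · exact ⟨1, by decide⟩
      · exact ⟨0, by decide⟩
      · exact ⟨0, by decide⟩
    have := hc i j hj
    rw [h0] at this
    simp at this
  set Y : Fin 3 → E4 := fun i => ‖X i‖⁻¹ • X i with hY
  have h1 : ∀ i, ‖Y i‖ = 1 := by
    intro i
    simp only [hY, norm_smul, norm_inv, norm_norm]
    exact inv_mul_cancel₀ (hpos i).ne'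
  have h2 : ∀ i j, i ≠ j → ⟪Y i, Y j⟫ < -1 / 2 := by
    intro i j hij
    simp only [hY]
    rw [inner_smul_left, inner_smul_right]
    have h3 := hc i j hij
    have hi := hpos i
    have hj := hpos j
    simp only [conj_trivial]
    have : ‖X i‖⁻¹ * (‖X j‖⁻¹ * ⟪X i, X j⟫) = ⟪X i, X j⟫ / (‖X i‖ * ‖X j‖) := by
      field_simp
    rw [this, div_lt_iff₀ (by positivity)]
    linarith
  have h3 : ‖Y 0 + Y 1 + Y 2‖ ^ 2 = 3 + 2 * ⟪Y 0, Y 1⟫ + 2 * ⟪Y 0, Y 2⟫ + 2 * ⟪Y 1, Y 2⟫ := by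
    rw [norm_add_sq_real, norm_add_sq_real, inner_add_left, h1, h1, h1]
    ring
  have h4 := h2 0 1 (by decide)
  have h5 := h2 0 2 (by decide)
  have h6 := h2 1 2 (by decide)
  nlinarith [sq_nonneg ‖Y 0 + Y 1 + Y 2‖]

/-- three unit tangent vectors at 120 degrees -/
lemma frame {q : E4} (hq : ‖q‖ = 1) : ∃ u : Fin 3 → E4, (∀ i, ON q (u i)) ∧
    ∀ i j, i ≠ j → ‖u i - u j‖ ^ 2 = 3 := by
  obtain ⟨e, f, he, hf, hqe, hqf, hef⟩ : ∃ e f : E4, ‖e‖ ^ 2 = 1 ∧ ‖f‖ ^ 2 = 1 ∧ ⟪q, e⟫ = 0 ∧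
      ⟪q, f⟫ = 0 ∧ ⟪e, f⟫ = 0 := by
    have hq2 : q 0 ^ 2 + q 1 ^ 2 + q 2 ^ 2 + q 3 ^ 2 = 1 := by
      have h1 : ‖q‖ ^ 2 = 1 := by rw [hq]; norm_num
      rw [EuclideanSpace.norm_sq_eq, Fin.sum_univ_four] at h1
      simpa using h1
    refine ⟨!₂[-q 1, q 0, -q 3, q 2], !₂[-q 2, q 3, q 0, -q 1], ?_, ?_, ?_, ?_, ?_⟩
    · rw [EuclideanSpace.norm_sq_eq, Fin.sum_univ_four]
      simp
      linarith
    · rw [EuclideanSpace.norm_sq_eq, Fin.sum_univ_four]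
      simp
      linarith
    · rw [PiLp.inner_apply, Fin.sum_univ_four]
      simp
      ring
    · rw [PiLp.inner_apply, Fin.sum_univ_four]
      simp
      ring
    · rw [PiLp.inner_apply, Fin.sum_univ_four]
      simp
      ring
  set c : ℝ := Real.sqrt 3 / 2 with hc
  have hc2 : c ^ 2 = 3 / 4 := by
    rw [hc, div_pow, Real.sq_sqrt (by norm_num)]; norm_num
  have key : ∀ x y x' y' : ℝ, ⟪x • e + y • f, x' • e + y' • f⟫ = x * x' + y * y' := by
    intro x y x' y'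
    rw [inner_add_left, inner_add_right, inner_add_right]
    simp only [inner_smul_left, inner_smul_right, real_inner_self_eq_norm_sq, he, hf, hef,
      real_inner_comm e f, conj_trivial]
    ring
  have keyq : ∀ x y : ℝ, ⟪q, x • e + y • f⟫ = 0 := by
    intro x y
    rw [inner_add_right, inner_smul_right, inner_smul_right, hqe, hqf]; ring
  have keyn : ∀ x y : ℝ, ‖x • e + y • f‖ ^ 2 = x ^ 2 + y ^ 2 := by
    intro x y
    rw [← real_inner_self_eq_norm_sq, key]; ring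
  have keyon : ∀ x y : ℝ, x ^ 2 + y ^ 2 = 1 → ON q (x • e + y • f) := by
    intro x y hxy
    refine ⟨hq, ?_, keyq x y⟩
    have := keyn x y
    rw [hxy] at this
    nlinarith [norm_nonneg (x • e + y • f)]
  have keyd : ∀ x y x' y' : ℝ, ‖(x • e + y • f) - (x' • e + y' • f)‖ ^ 2 =
      (x - x') ^ 2 + (y - y') ^ 2 := by
    intro x y x' y'
    rw [← keyn]
    congr 2
    simp only [sub_smul]
    abel
  refine ⟨![(1 : ℝ) • e + (0 : ℝ) • f, (-1 / 2 : ℝ) • e + c • f, (-1 / 2 : ℝ) • e + (-c) • f],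
    ?_, ?_⟩
  · intro i
    fin_cases i
    · exact keyon _ _ (by norm_num)
    · exact keyon _ _ (by rw [hc2]; norm_num)
    · exact keyon _ _ (by rw [neg_sq, hc2]; norm_num)
  · intro i j hij
    fin_cases i <;> fin_cases j <;> first | exact absurd rfl hij | skip
    · exact (keyd _ _ _ _).trans (by rw [zero_sub, neg_sq, hc2]; norm_num)
    · exact (keyd _ _ _ _).trans (by rw [zero_sub, neg_neg, hc2]; norm_num)
    · exact (keyd _ _ _ _).trans (by rw [sub_zero, hc2]; norm_num)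
    · exact (keyd _ _ _ _).trans (by nlinarith)
    · exact (keyd _ _ _ _).trans (by rw [sub_zero, neg_sq, hc2]; norm_num)
    · exact (keyd _ _ _ _).trans (by nlinarith)

end Pool.Agent.N99.RF3
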