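import Mathlib
import Pool.Agent.N99.RF3.Num

set_option autoImplicit false
open scoped ContDiff Manifold Topology Matrix RealInnerProductSpace
open Set
open Pool.Agent.N535

namespace Pool.Agent.N99.RF3

/-- component orthogonal to the pole -/
noncomputable def pr (p : E4) : E4 := p - p 0 • NP

lemma pr_add (α β : ℝ) (p q : E4) : pr (α • p + β • q) = α • pr p + β • pr q := by
  unfold pr
  have : (α • p + β • q) 0 = α * p 0 + β * q 0 := by simp
  rw [this, smul_sub, smul_sub, smul_smul, smul_smul, add_smul]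
  abel

lemma inner_pr (p q : E4) : ⟪pr p, pr q⟫ = ⟪p, q⟫ - p 0 * q 0 := by
  unfold pr
  have h1 : ⟪p, NP⟫ = p 0 := by rw [real_inner_comm, inner_NP]
  have h2 : ⟪NP, q⟫ = q 0 := inner_NP q
  have h3 : ⟪NP, NP⟫ = 1 := by rw [real_inner_self_eq_norm_sq, NP_norm]; norm_num
  simp only [inner_sub_left, inner_sub_right, inner_smul_left, inner_smul_right, conj_trivial]
  rw [h1, h2, h3]
  ring

lemma norm_pr_sq (p : E4) : ‖pr p‖ ^ 2 = ‖p‖ ^ 2 - p 0 ^ 2 := by
  rw [← real_inner_self_eq_norm_sq, inner_pr, real_inner_self_eq_norm_sq]; ring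

lemma norm_pr_le {p : E4} (hp : ‖p‖ = 1) : ‖pr p‖ ≤ ‖p - NP‖ := by
  have h1 := norm_pr_sq p
  have h2 : ‖p - NP‖ ^ 2 = 2 - 2 * p 0 := by
    rw [norm_sub_sq_real, hp, NP_norm, real_inner_comm, inner_NP]; ring
  rw [hp] at h1
  have h3 : ‖pr p‖ ^ 2 ≤ ‖p - NP‖ ^ 2 := by
    rw [h1, h2]; nlinarith [sq_nonneg (1 - p 0)]
  exact le_of_sq_le_sq h3 (norm_nonneg _)

variable {a b η ε r : ℝ} {h : ℝ → ℝ} {φ : S3 ≃ₘ^∞⟮𝓡 3, 𝓡 3⟯ S3}

lemma far_core {a b τ r : ℝ} (hb0 : 0 ≤ b) (hb : b ≤ 1 / 10) (hτ0 : 0 < τ) (hτ : τ ≤ 1 / 1000)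
    (D : Data a b (τ / 100) (τ / 100) r h φ) (hlog : a * Real.log (1 + 1 / τ) = 1)
    (hr : r < τ ^ 2 / 10) : False := by
  have hr0 := D.hr
  have ha0 := D.ha
  obtain ⟨R, hRr⟩ : ∃ R, R = r / τ := ⟨_, rfl⟩
  have hR0 : 0 < R := by rw [hRr]; positivity
  have hrR : r = τ * R := by rw [hRr]; field_simp
  have hR1 : R < τ / 10 := by
    rw [hRr, div_lt_iff₀ hτ0]; nlinarith
  have hR2 : R ^ 2 ≤ τ / 100 := by nlinarith
  have hR2' : R ^ 2 ≤ 1 / 100000 := by linarith
  obtain ⟨ρ, hρd⟩ : ∃ ρ, ρ = (1 - τ / 100) * (1 + τ) * R / (1 + τ / 100) := ⟨_, rfl⟩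
  have hρ : ρ * (1 + τ / 100) = (1 - τ / 100) * (1 + τ) * R := by
    rw [hρd]; field_simp
  obtain ⟨hρ0, hρ1, hρ2⟩ := rho_le hτ0 hτ hR0 hρ
  have hρpi : ρ < Real.pi := by nlinarith [Real.pi_gt_three]
  -- the pole and its preimage
  let NS : S3 := ⟨NP, by simpa using NP_norm⟩
  set q : S3 := φ.symm NS with hq
  obtain ⟨u, hon, hu⟩ := frame (norm_S3 q)
  have hq0 : ∀ i, (φ (gcs (q : E4) (u i) (hon i) 0) : E4) = NP := by
    intro i
    have : gcs (q : E4) (u i) (hon i) 0 = q := by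
      apply Subtype.ext
      simp [gcs, gc]
    rw [this, hq, φ.apply_symm_apply]
  set A : Fin 3 → S3 := fun i => gcs (q : E4) (u i) (hon i) ρ with hA
  set B : Fin 3 → S3 := fun i => φ (A i) with hB
  have hBR : ∀ i, ‖(B i : E4) - NP‖ ≤ R := by
    intro i
    have h1 := D.fwd (hon i) (hq0 i) hρ0 hρpi
    by_contra hc
    push Not at hc
    change (1 - τ / 100) * (‖(B i : E4) - NP‖ +
      a * r * Real.log (1 + ‖(B i : E4) - NP‖ / r)) ≤ (1 + τ / 100) * ρ at h1
    have h2 : Real.log (1 + 1 / τ) ≤ Real.log (1 + ‖(B i : E4) - NP‖ / r) := by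
      apply Real.log_le_log (by positivity)
      have : 1 / τ = R / r := by rw [hrR]; field_simp
      rw [this]
      have : R / r ≤ ‖(B i : E4) - NP‖ / r := by gcongr
      linarith
    have h3 : R * (1 + τ) < ‖(B i : E4) - NP‖ + a * r * Real.log (1 + ‖(B i : E4) - NP‖ / r) := by
      have : a * r * Real.log (1 + 1 / τ) ≤ a * r * Real.log (1 + ‖(B i : E4) - NP‖ / r) :=
        mul_le_mul_of_nonneg_left h2 (by positivity)
      have e1 : a * r * Real.log (1 + 1 / τ) = τ * R := by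
        calc a * r * Real.log (1 + 1 / τ) = (a * Real.log (1 + 1 / τ)) * r := by ring
          _ = τ * R := by rw [hlog, hrR]; ring
      linarith
    have h4 : 0 < 1 - τ / 100 := by linarith
    have h5 := mul_lt_mul_of_pos_left h3 h4
    linarith
  have hB0 : ∀ i, 0 ≤ 1 - (B i : E4) 0 ∧ 1 - (B i : E4) 0 ≤ R ^ 2 / 2 := by
    intro i
    have h2 : ‖(B i : E4) - NP‖ ^ 2 = 2 - 2 * (B i : E4) 0 := by
      rw [norm_sub_sq_real, norm_S3, NP_norm, real_inner_comm, inner_NP]; ring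
    have h3 : ‖(B i : E4) - NP‖ ^ 2 ≤ R ^ 2 := pow_le_pow_left₀ (norm_nonneg _) (hBR i) 2
    constructor
    · nlinarith [sq_nonneg ‖(B i : E4) - NP‖]
    · linarith
  obtain ⟨i, j, hij, hpair⟩ := pair fun i => pr (B i : E4)
  set x := ‖pr (B i : E4)‖ with hx
  set y := ‖pr (B j : E4)‖ with hy
  have hx0 : 0 ≤ x := norm_nonneg _
  have hy0 : 0 ≤ y := norm_nonneg _
  have hxR : x ≤ R := (norm_pr_le (norm_S3 (B i))).trans (hBR i)
  have hyR : y ≤ R := (norm_pr_le (norm_S3 (B j))).trans (hBR j)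
  set δ := ‖(B i : E4) - (B j : E4)‖ with hδ
  have hδ0 : 0 ≤ δ := norm_nonneg _
  set z := ⟪pr (B i : E4), pr (B j : E4)⟫ with hz
  have hδ2 : δ ^ 2 = (x ^ 2 + y ^ 2 - 2 * z) + ((B i : E4) 0 - (B j : E4) 0) ^ 2 := by
    rw [hδ, norm_sub_sq_real, hx, hy, norm_pr_sq, norm_pr_sq, hz, inner_pr]; ring
  have hdiff : ((B i : E4) 0 - (B j : E4) 0) ^ 2 ≤ R ^ 4 / 4 := by
    obtain ⟨h1, h2⟩ := hB0 i
    obtain ⟨h3, h4⟩ := hB0 j
    have h5 : |(B i : E4) 0 - (B j : E4) 0| ≤ R ^ 2 / 2 := by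
      rw [abs_le]; constructor <;> linarith
    have h6 := pow_le_pow_left₀ (abs_nonneg _) h5 2
    rw [sq_abs] at h6
    nlinarith
  -- difference of the A's
  have hAij : ‖(A i : E4) - (A j : E4)‖ = Real.sqrt 3 * Real.sin ρ := by
    have e1 : (A i : E4) - (A j : E4) = Real.sin ρ • (u i - u j) := by
      simp only [hA, gcs_coe, gc, smul_sub]; abel
    have e2 : ‖u i - u j‖ = Real.sqrt 3 := by
      rw [← hu i j hij, Real.sqrt_sq (norm_nonneg _)]
    rw [e1, norm_smul, e2, Real.norm_of_nonneg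
      (Real.sin_nonneg_of_nonneg_of_le_pi hρ0.le hρpi.le)]
    ring
  have hsin : ρ - ρ ^ 3 / 6 ≤ Real.sin ρ := (Real.sin_gt_sub_cube hρ0).le
  have hs3 : (0 : ℝ) < Real.sqrt 3 := by positivity
  have hsq3 : Real.sqrt 3 ^ 2 = 3 := Real.sq_sqrt (by norm_num)
  have hRR : R ^ 4 = (R ^ 2) ^ 2 := by ring
  have hδ3 : δ ^ 2 ≤ 3 * R ^ 2 * (1 + R ^ 2 / 12) := by
    have h1 : x ^ 2 + y ^ 2 - 2 * z ≤ x ^ 2 + y ^ 2 + x * y := by linarith
    have h2 : x ^ 2 + y ^ 2 + x * y ≤ 3 * R ^ 2 := by nlinarith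
    nlinarith
  have hδ1 : δ ≤ 1 := by
    have : δ ^ 2 ≤ 1 ^ 2 := by nlinarith
    exact le_of_sq_le_sq this (by norm_num)
  have hne : (B i : E4) ≠ (B j : E4) := by
    intro e
    have e1 : B i = B j := Subtype.ext e
    have e2 : A i = A j := φ.injective e1
    have e3 : ‖(A i : E4) - (A j : E4)‖ = 0 := by rw [e2, sub_self, norm_zero]
    rw [hAij] at e3
    have := Real.sin_pos_of_pos_of_lt_pi hρ0 hρpi
    have : 0 < Real.sqrt 3 * Real.sin ρ := by positivity
    linarith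
  obtain ⟨θ, w, hw, hθ0, hθ1, hθe, hpath⟩ := path (norm_S3 (B i)) (norm_S3 (B j)) hne hδ1
  rw [← hδ] at hθ1
  have hback : ∀ M, (∀ t ∈ Icc 0 θ, h (gc (B i : E4) w t 0) ≤ M) →
      Real.sqrt 3 * Real.sin ρ ≤ (1 + τ / 100) * M * θ := by
    intro M hM
    have h1 := D.bwd hw hθ0.le hM
    have e1 : gcs (B i : E4) w hw θ = B j := Subtype.ext hθe
    have e2 : gcs (B i : E4) w hw 0 = B i := by
      apply Subtype.ext
      simp [gcs, gc]
    rw [e1, e2] at h1
    have e3 : φ.symm (B j) = A j := φ.symm_apply_apply _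
    have e4 : φ.symm (B i) = A i := φ.symm_apply_apply _
    rw [e3, e4, norm_sub_rev, hAij] at h1
    exact h1
  have hθ2 : θ ≤ δ * (1 + R ^ 2) := by
    refine hθ1.trans (mul_le_mul_of_nonneg_left ?_ hδ0)
    nlinarith
  by_cases hcase : x ^ 2 + y ^ 2 - 2 * z ≤ (7 / 5) ^ 2 * R ^ 2
  · -- close points
    have h1 := hback ((1 + τ / 100) * (1 + b)) (by
      intro t ht
      refine (D.up _ (gc_norm hw t)).trans ?_
      have : r / (r + ‖gc (B i : E4) w t - NP‖) ≤ 1 := by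
        rw [div_le_one (by positivity)]
        linarith [norm_nonneg (gc (B i : E4) w t - NP)]
      have h2 : b * (r / (r + ‖gc (B i : E4) w t - NP‖)) ≤ b * 1 :=
        mul_le_mul_of_nonneg_left this hb0
      apply mul_le_mul_of_nonneg_left _ (by positivity)
      linarith)
    have h2 : δ ≤ 71 / 50 * R := by
      have : δ ^ 2 ≤ (71 / 50 * R) ^ 2 := by nlinarith
      exact le_of_sq_le_sq this (by positivity)
    have h3 : θ ≤ 143 / 100 * R := by nlinarith
    have h4 : (1 + τ / 100) * ((1 + τ / 100) * (1 + b)) ≤ 111 / 100 := by nlinarith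
    have h5 : (1 + τ / 100) * ((1 + τ / 100) * (1 + b)) * θ ≤ 111 / 100 * (143 / 100 * R) :=
      mul_le_mul h4 h3 hθ0.le (by norm_num)
    have h6 : 98 / 100 * R ≤ Real.sin ρ := by
      have e1 : ρ ^ 2 ≤ 1 / 100 := by nlinarith
      have e2 : ρ * ρ ^ 2 ≤ ρ * (1 / 100) := mul_le_mul_of_nonneg_left e1 hρ0.le
      nlinarith
    have h7 : (17 / 10 : ℝ) ≤ Real.sqrt 3 := by
      apply Real.le_sqrt_of_sq_le; norm_num
    have h8 : 17 / 10 * (98 / 100 * R) ≤ Real.sqrt 3 * Real.sin ρ :=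
      mul_le_mul h7 h6 (by positivity) hs3.le
    nlinarith
  · -- the path stays away from the pole
    push Not at hcase
    have hx6 : 3 / 5 * R ≤ x := by
      by_contra hc
      push Not at hc
      nlinarith
    have hy6 : 3 / 5 * R ≤ y := by
      by_contra hc
      push Not at hc
      nlinarith
    have h1 := hback ((1 + τ / 100) * (1 + τ / 3)) (by
      intro t ht
      refine (D.up _ (gc_norm hw t)).trans ?_
      have hfar : 3 / 10 * R ≤ ‖gc (B i : E4) w t - NP‖ := by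
        refine le_trans ?_ (norm_pr_le (gc_norm hw t))
        obtain ⟨α, β, hα, hβ, hαβ, he⟩ := hpath t ht
        rw [he, pr_add]
        have h2 : ‖α • pr (B i : E4) + β • pr (B j : E4)‖ ^ 2 =
            (α * x) ^ 2 + (β * y) ^ 2 + 2 * (α * β) * z := by
          rw [norm_add_sq_real, norm_smul, norm_smul, inner_smul_left, inner_smul_right,
            mul_pow, mul_pow, Real.norm_eq_abs, Real.norm_eq_abs, sq_abs, sq_abs, ← hx, ← hy, ← hz]
          simp only [conj_trivial]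
          ring
        have h3 : (3 / 10 * R) ^ 2 ≤ ‖α • pr (B i : E4) + β • pr (B j : E4)‖ ^ 2 := by
          rw [h2]
          have h4 : -(α * x) * (β * y) ≤ 2 * (α * β) * z := by
            have := mul_le_mul_of_nonneg_left hpair (mul_nonneg hα hβ)
            nlinarith
          have h5 : 3 / 5 * R ≤ α * x + β * y := by
            have e1 : α * (3 / 5 * R) ≤ α * x := mul_le_mul_of_nonneg_left hx6 hα
            have e2 : β * (3 / 5 * R) ≤ β * y := mul_le_mul_of_nonneg_left hy6 hβ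
            have e3 : 1 * (3 / 5 * R) ≤ (α + β) * (3 / 5 * R) :=
              mul_le_mul_of_nonneg_right hαβ (by positivity)
            linarith
          have h6 : (3 / 5 * R) ^ 2 ≤ (α * x + β * y) ^ 2 := pow_le_pow_left₀ (by positivity) h5 2
          nlinarith [sq_nonneg (α * x - β * y)]
        exact le_of_sq_le_sq h3 (norm_nonneg _)
      have h4 : r / (r + ‖gc (B i : E4) w t - NP‖) ≤ 10 / 3 * τ := by
        rw [div_le_iff₀ (by positivity)]
        nlinarith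
      have h5 : b * (r / (r + ‖gc (B i : E4) w t - NP‖)) ≤ 1 / 10 * (10 / 3 * τ) :=
        mul_le_mul hb h4 (by positivity) (by norm_num)
      apply mul_le_mul_of_nonneg_left _ (by positivity)
      linarith)
    have h2 : δ ≤ Real.sqrt 3 * (R * (1 + R ^ 2 / 24)) := by
      have : δ ^ 2 ≤ (Real.sqrt 3 * (R * (1 + R ^ 2 / 24))) ^ 2 := by
        rw [mul_pow, hsq3]
        nlinarith [sq_nonneg (R * R ^ 2)]
      exact le_of_sq_le_sq this (by positivity)
    -- sharper bound for the angle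
    have h3 : θ ≤ Real.sqrt 3 * (R * (1 + R ^ 2)) := by
      have e1 : 1 + δ ^ 2 / 5 ≤ 1 + 7 / 10 * R ^ 2 := by nlinarith
      have e2 : θ ≤ Real.sqrt 3 * (R * (1 + R ^ 2 / 24)) * (1 + 7 / 10 * R ^ 2) :=
        hθ1.trans (mul_le_mul h2 e1 (by positivity) (by positivity))
      have e3 : (1 + R ^ 2 / 24) * (1 + 7 / 10 * R ^ 2) ≤ 1 + R ^ 2 := by nlinarith
      have e4 : Real.sqrt 3 * R * ((1 + R ^ 2 / 24) * (1 + 7 / 10 * R ^ 2)) ≤
          Real.sqrt 3 * R * (1 + R ^ 2) := mul_le_mul_of_nonneg_left e3 (by positivity)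
      nlinarith
    have h4 : Real.sin ρ ≤ (1 + τ / 100) * ((1 + τ / 100) * (1 + τ / 3)) * (R * (1 + R ^ 2)) := by
      have e1 : (1 + τ / 100) * ((1 + τ / 100) * (1 + τ / 3)) * θ ≤
          (1 + τ / 100) * ((1 + τ / 100) * (1 + τ / 3)) * (Real.sqrt 3 * (R * (1 + R ^ 2))) :=
        mul_le_mul_of_nonneg_left h3 (by positivity)
      have e2 : Real.sqrt 3 * Real.sin ρ ≤ Real.sqrt 3 *
          ((1 + τ / 100) * ((1 + τ / 100) * (1 + τ / 3)) * (R * (1 + R ^ 2))) := by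
        linarith
      exact le_of_mul_le_mul_left e2 hs3
    exact num2 hτ0 hτ hR0 hR2 hρ hsin h4

theorem stFar : Pool.Agent.N535.StFar := by
  intro a b ha hab hb
  set τ : ℝ := 1 / (Real.exp (1 / a) - 1) with hτ
  have hexp : 1024 ≤ Real.exp (1 / a) := by
    have h1 : (10 : ℝ) ≤ 1 / a := by
      rw [le_div_iff₀ ha]; linarith
    have h2 : Real.exp 10 ≤ Real.exp (1 / a) := Real.exp_le_exp.mpr h1
    have h3 : Real.exp 10 = Real.exp 1 ^ 10 := by rw [← Real.exp_nat_mul]; norm_num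
    have h4 : (2 : ℝ) ≤ Real.exp 1 := by linarith [Real.add_one_le_exp (1 : ℝ)]
    have h5 : (2 : ℝ) ^ 10 ≤ Real.exp 1 ^ 10 := pow_le_pow_left₀ (by norm_num) h4 10
    norm_num at h5
    linarith
  have hτ0 : 0 < τ := by
    rw [hτ]; apply div_pos one_pos; linarith
  have hτ1 : τ ≤ 1 / 1000 := by
    rw [hτ]
    apply one_div_le_one_div_of_le (by norm_num)
    linarith
  have hlog : a * Real.log (1 + 1 / τ) = 1 := by
    have : 1 + 1 / τ = Real.exp (1 / a) := by rw [hτ, one_div_one_div]; ring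
    rw [this, Real.log_exp]
    field_simp
  refine ⟨τ / 100, by positivity, τ / 100, by positivity, τ ^ 2 / 10, by positivity, ?_⟩
  intro r hr h hcont hh φ
  by_contra hc
  push Not at hc
  have D : Data a b (τ / 100) (τ / 100) r h φ := by
    refine ⟨ha, hr.1, by positivity, by linarith, by positivity, by linarith, ?_, ?_, ?_⟩
    · intro p hp
      rw [dist_NP hp]
      exact (hh _ (coord_mem hp)).1
    · intro p hp
      rw [dist_NP hp]
      exact (hh _ (coord_mem hp)).2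
    · intro p u hu
      exact hc p u hu
  exact far_core (by linarith) hb hτ0 hτ1 D hlog hr.2

end Pool.Agent.N99.RF3
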