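import Mathlib
import Pool.Agent.N99.RF3.FlowE

set_option autoImplicit false
open scoped ContDiff Topology
open Set

namespace Pool.Agent.N99.RF3

lemma hasDerivAt_fst {F : Type} [NormedAddCommGroup F] [NormedSpace ℝ F] {Y : ℝ × ℝ → F} {t x : ℝ}
    (h : DifferentiableAt ℝ Y (t, x)) :
    HasDerivAt (fun s => Y (s, x)) (fderiv ℝ Y (t, x) (1, 0)) t := by
  have h1 : HasDerivAt (fun s : ℝ => ((s, x) : ℝ × ℝ)) (1, 0) t :=
    (hasDerivAt_id t).prodMk (hasDerivAt_const t x)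
  exact h.hasFDerivAt.comp_hasDerivAt t h1

lemma hasDerivAt_snd {F : Type} [NormedAddCommGroup F] [NormedSpace ℝ F] {Y : ℝ × ℝ → F} {t x : ℝ}
    (h : DifferentiableAt ℝ Y (t, x)) :
    HasDerivAt (fun z => Y (t, z)) (fderiv ℝ Y (t, x) (0, 1)) x := by
  have h1 : HasDerivAt (fun z : ℝ => ((t, z) : ℝ × ℝ)) (0, 1) x :=
    (hasDerivAt_const x t).prodMk (hasDerivAt_id x)
  exact h.hasFDerivAt.comp_hasDerivAt x h1

lemma mixed {Y : ℝ × ℝ → ℝ} (hY : ContDiff ℝ ∞ Y) (t x : ℝ) {G : ℝ → ℝ} {G' : ℝ}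
    (hG : ∀ z, fderiv ℝ Y (t, z) (1, 0) = G z) (hGd : HasDerivAt G G' x) :
    HasDerivAt (fun s => fderiv ℝ Y (s, x) (0, 1)) G' t := by
  have hD : ContDiff ℝ ∞ (fderiv ℝ Y) := hY.fderiv_right (by simp)
  have hDd : DifferentiableAt ℝ (fderiv ℝ Y) (t, x) := hD.differentiable (by simp) _
  have h1 := hasDerivAt_fst hDd
  have h2 := hasDerivAt_snd hDd
  have h3 : HasDerivAt (fun s => fderiv ℝ Y (s, x) (0, 1))
      (fderiv ℝ (fderiv ℝ Y) (t, x) (1, 0) (0, 1)) t := by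
    have := h1.clm_apply (hasDerivAt_const t ((0, 1) : ℝ × ℝ))
    simpa using this
  have h4 : HasDerivAt (fun z => fderiv ℝ Y (t, z) (1, 0))
      (fderiv ℝ (fderiv ℝ Y) (t, x) (0, 1) (1, 0)) x := by
    have := h2.clm_apply (hasDerivAt_const x ((1, 0) : ℝ × ℝ))
    simpa using this
  have hsym : fderiv ℝ (fderiv ℝ Y) (t, x) (1, 0) (0, 1) =
      fderiv ℝ (fderiv ℝ Y) (t, x) (0, 1) (1, 0) :=
    (hY.contDiffAt.isSymmSndFDerivAt (by simpa using ENat.LEInfty.out)) _ _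
  have h5 : (fun z => fderiv ℝ Y (t, z) (1, 0)) = G := funext hG
  rw [h5] at h4
  rw [hsym, h4.unique hGd] at h3
  exact h3

/-- a function with zero derivative on an open interval is constant -/
lemma const_on {f : ℝ → ℝ} {a b t s : ℝ} (hf : ∀ u ∈ Ioo a b, HasDerivAt f 0 u) (ht : t ∈ Ioo a b)
    (hs : s ∈ Ioo a b) : f t = f s := by
  have h := (convex_Ioo a b).is_const_of_fderivWithin_eq_zero (𝕜 := ℝ) (f := f)
    (fun u hu => (hf u hu).differentiableAt.differentiableWithinAt)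
    (fun u hu => by
      have h1 := (hf u hu).hasFDerivAt.hasFDerivWithinAt (s := Ioo a b)
      have h2 := h1.fderivWithin (isOpen_Ioo.uniqueDiffWithinAt hu)
      rw [h2]
      ext
      simp)
    ht hs
  exact h

structure Fl (Z : ℝ × ℝ → ℝ) (ψ : ℝ → ℝ) (t₀ : ℝ) (Y Q L : ℝ × ℝ → ℝ) : Prop where
  sZ : ContDiff ℝ ∞ Z
  sY : ContDiff ℝ ∞ Y
  sQ : ContDiff ℝ ∞ Q
  sL : ContDiff ℝ ∞ L
  Y0 : ∀ x, Y (t₀, x) = x
  Q0 : ∀ x, Q (t₀, x) = 0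
  L0 : ∀ x, L (t₀, x) = 0
  dY : ∀ t x, HasDerivAt (fun s => Y (s, x)) (Z (t, Y (t, x)) * (1 - Y (t, x) ^ 2)) t
  dQ : ∀ t x, HasDerivAt (fun s => Q (s, x)) (-2 * Y (t, x) * Z (t, Y (t, x))) t
  dL : ∀ t x, HasDerivAt (fun s => L (s, x)) (fderiv ℝ Z (t, Y (t, x)) (0, 1) * ψ (Q (t, x))) t

variable {Z : ℝ × ℝ → ℝ} {ψ : ℝ → ℝ} {t₀ : ℝ} {Y Q L : ℝ × ℝ → ℝ}

theorem exists_fl {Z : ℝ × ℝ → ℝ} {ψ : ℝ → ℝ} (hZ : ContDiff ℝ ∞ Z) (cZ : HasCompactSupport Z)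
    (hψ : ContDiff ℝ ∞ ψ) (cψ : HasCompactSupport ψ) (t₀ : ℝ) :
    ∃ Y Q L : ℝ × ℝ → ℝ, Fl Z ψ t₀ Y Q L := by
  have h1 : ContDiff ℝ ∞ (fun p : ℝ × ℝ => Z p * (1 - p.2 ^ 2)) := by fun_prop
  have h2 : ContDiff ℝ ∞ (fun p : ℝ × ℝ => (-2 * p.2) * Z p) := by fun_prop
  have h3 : ContDiff ℝ ∞ (fun p : ℝ × ℝ => fderiv ℝ Z p (0, 1)) :=
    (hZ.fderiv_right (by simp)).clm_apply contDiff_const
  have c1 : HasCompactSupport (fun p : ℝ × ℝ => Z p * (1 - p.2 ^ 2)) := cZ.mul_right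
  have c2 : HasCompactSupport (fun p : ℝ × ℝ => (-2 * p.2) * Z p) := cZ.mul_left
  have c3 : HasCompactSupport (fun p : ℝ × ℝ => fderiv ℝ Z p (0, 1)) :=
    HasCompactSupport.fderiv_apply ℝ cZ (0, 1)
  obtain ⟨Y, Q, L, sY, sQ, sL, h0, hd⟩ := flow4 h1 h2 h3 hψ c1 c2 c3 cψ t₀
  exact ⟨Y, Q, L, hZ, sY, sQ, sL, fun x => (h0 x).1, fun x => (h0 x).2.1, fun x => (h0 x).2.2,
    fun t x => (hd t x).1, fun t x => (hd t x).2.1, fun t x => (hd t x).2.2⟩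

/-- `1 - y² = (1 - x²) e^Q` -/
theorem Fl.one_sub (F : Fl Z ψ t₀ Y Q L) (t x : ℝ) :
    1 - Y (t, x) ^ 2 = (1 - x ^ 2) * Real.exp (Q (t, x)) := by
  have h1 : ∀ s, HasDerivAt (fun s => (1 - Y (s, x) ^ 2) * Real.exp (-Q (s, x))) 0 s := by
    intro s
    have e1 := (((F.dY s x).pow 2).const_sub 1).mul (F.dQ s x).neg.exp
    refine e1.congr_deriv ?_
    simp only [Pi.pow_apply]
    ring
  have h2 : (1 - Y (t, x) ^ 2) * Real.exp (-Q (t, x)) =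
      (1 - Y (t₀, x) ^ 2) * Real.exp (-Q (t₀, x)) :=
    is_const_of_deriv_eq_zero (f := fun s => (1 - Y (s, x) ^ 2) * Real.exp (-Q (s, x)))
      (fun s => (h1 s).differentiableAt) (fun s => (h1 s).deriv) t t₀
  rw [F.Y0, F.Q0, neg_zero, Real.exp_zero, mul_one] at h2
  rw [← h2, mul_assoc, ← Real.exp_add]
  simp

/-- the derivative in `x` -/
theorem Fl.dYx (F : Fl Z ψ t₀ Y Q L) (t x : ℝ) :
    HasDerivAt (fun s => fderiv ℝ Y (s, x) (0, 1))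
      ((fderiv ℝ Z (t, Y (t, x)) (0, 1) * (1 - Y (t, x) ^ 2) - 2 * Y (t, x) * Z (t, Y (t, x))) *
        fderiv ℝ Y (t, x) (0, 1)) t := by
  have hYd : ∀ p, DifferentiableAt ℝ Y p := fun p => F.sY.differentiable (by simp) p
  have hZd : ∀ p, DifferentiableAt ℝ Z p := fun p => F.sZ.differentiable (by simp) p
  refine mixed F.sY t x (G := fun z => Z (t, Y (t, z)) * (1 - Y (t, z) ^ 2)) ?_ ?_
  · intro z
    exact (hasDerivAt_fst (hYd (t, z))).unique (F.dY t z)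
  · have h1 := hasDerivAt_snd (hYd (t, x))
    have h2 : HasDerivAt (fun z => Z (t, Y (t, z)))
        (fderiv ℝ Z (t, Y (t, x)) (0, 1) * fderiv ℝ Y (t, x) (0, 1)) x := by
      have := (hasDerivAt_snd (hZd (t, Y (t, x)))).comp x h1
      exact this
    refine (h2.mul ((h1.pow 2).const_sub 1)).congr_deriv ?_
    simp only [Pi.pow_apply]
    ring

theorem Fl.Yx_eq (F : Fl Z ψ t₀ Y Q L) {a b t x : ℝ} (h0 : t₀ ∈ Ioo a b) (ht : t ∈ Ioo a b)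
    (hψ : ∀ s ∈ Ioo a b, ψ (Q (s, x)) = Real.exp (Q (s, x))) :
    fderiv ℝ Y (t, x) (0, 1) = Real.exp (Q (t, x) + (1 - x ^ 2) * L (t, x)) := by
  have h1 : ∀ s ∈ Ioo a b, HasDerivAt (fun s => fderiv ℝ Y (s, x) (0, 1) *
      Real.exp (-(Q (s, x) + (1 - x ^ 2) * L (s, x)))) 0 s := by
    intro s hs
    have e1 := (F.dYx s x).mul (((F.dQ s x).add ((F.dL s x).const_mul (1 - x ^ 2))).neg.exp)
    refine e1.congr_deriv ?_
    rw [hψ s hs, F.one_sub s x]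
    ring
  have h2 := const_on h1 ht h0
  have h3 : fderiv ℝ Y (t₀, x) (0, 1) = 1 := by
    have e1 := hasDerivAt_snd (F.sY.differentiable (by simp) (t₀, x))
    have e2 : (fun z => Y (t₀, z)) = id := funext F.Y0
    rw [e2] at e1
    exact e1.unique (hasDerivAt_id x)
  rw [h3, F.Q0, F.L0, mul_zero, add_zero, neg_zero, Real.exp_zero, mul_one, Real.exp_neg] at h2
  field_simp at h2
  exact h2

/-- bound for `Q` -/
theorem Fl.Q_bound (F : Fl Z ψ t₀ Y Q L) {B : ℝ} (hB : ∀ p : ℝ × ℝ, |2 * p.2 * Z p| ≤ B) (t x : ℝ) :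
    |Q (t, x)| ≤ B * |t - t₀| := by
  have h := Convex.norm_image_sub_le_of_norm_hasDerivWithin_le (𝕜 := ℝ) (f := fun s => Q (s, x))
    (f' := fun t => -2 * Y (t, x) * Z (t, Y (t, x))) (C := B) (s := univ) (x := t₀) (y := t)
    (fun s _ => (F.dQ s x).hasDerivWithinAt)
    (fun s _ => by
      have := hB (s, Y (s, x))
      rw [Real.norm_eq_abs]
      simpa [abs_mul] using this)
    convex_univ (mem_univ _) (mem_univ _)
  rw [F.Q0, sub_zero, Real.norm_eq_abs, Real.norm_eq_abs] at h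
  exact h

end Pool.Agent.N99.RF3
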