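import Mathlib
import Pool.Agent.N99.RF3.GaugeC

set_option autoImplicit false
open scoped ContDiff Topology Manifold
open Set

namespace Pool.Agent.N99.RF3

open Pool.Agent.N535

lemma comp_snd' {f : ℝ × ℝ → ℝ} {t x : ℝ} {Y' : ℝ} {Y : ℝ → ℝ}
    (hf : DifferentiableAt ℝ f (t, Y x)) (hY : HasDerivAt Y Y' x) :
    HasDerivAt (fun z => f (t, Y z)) (fderiv ℝ f (t, Y x) (0, 1) * Y') x :=
  (hasDerivAt_snd hf).comp x hY

lemma pairs {f : ℝ × ℝ → ℝ} {t : ℝ} {Y' : ℝ} {Y : ℝ → ℝ} (hf : DifferentiableAt ℝ f (t, Y t))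
    (hY : HasDerivAt Y Y' t) :
    HasDerivAt (fun s => f (s, Y s)) (fderiv ℝ f (t, Y t) (1, 0) + fderiv ℝ f (t, Y t) (0, 1) * Y')
      t := by
  have h1 : HasDerivAt (fun s : ℝ => ((s, Y s) : ℝ × ℝ)) (1, Y') t :=
    (hasDerivAt_id t).prodMk hY
  have h2 := hf.hasFDerivAt.comp_hasDerivAt t h1
  refine h2.congr_deriv ?_
  have h3 : ((1, Y') : ℝ × ℝ) = (1, 0) + Y' • (0, 1) := by simp
  rw [h3, map_add, map_smul, smul_eq_mul]
  ring

theorem stGauge : StGauge := by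
  intro T d v I hT hd sv sI vpos hI hpde t₁ t₀ t₂ h1 h10 h02 h2
  set Ω : Set (ℝ × ℝ) := Ioo 0 T ×ˢ Ioo (-1 - d) (1 + d) with hΩ
  set V : ℝ × ℝ → ℝ := fun p => v p.1 p.2 with hVdef
  set J : ℝ × ℝ → ℝ := fun p => I p.1 p.2 with hJdef
  have oΩ : IsOpen Ω := isOpen_Ioo.prod isOpen_Ioo
  set P : ℝ × ℝ → ℝ := fun p => fderiv ℝ V p (0, 1) with hPdef
  have sP : ContDiffOn ℝ ∞ P Ω := by
    have : ContDiffOn ℝ ∞ (fderiv ℝ V) Ω := sv.fderiv_of_isOpen oΩ (by simp)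
    exact this.clm_apply contDiffOn_const
  set ζ : ℝ × ℝ → ℝ := fun p => -(V p * P p) + J p with hζ
  have sζ : ContDiffOn ℝ ∞ ζ Ω := (sv.mul sP).neg.add sI
  have memΩ : ∀ t ∈ Icc t₁ t₂, ∀ y ∈ Icc (-1 : ℝ) 1, ((t, y) : ℝ × ℝ) ∈ Ω := by
    intro t ht y hy
    refine ⟨⟨by linarith [ht.1], by linarith [ht.2]⟩, ⟨by linarith [hy.1], by linarith [hy.2]⟩⟩
  obtain ⟨Z, sZ, cZ, hZ⟩ := cutoff_mul (K := Icc t₁ t₂ ×ˢ Icc (-1 : ℝ) 1)
    (isCompact_Icc.prod isCompact_Icc) oΩ (fun p hp => memΩ p.1 hp.1 p.2 hp.2) sζ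
  obtain ⟨B0, hB0⟩ : ∃ B0, ∀ p : ℝ × ℝ, |2 * p.2 * Z p| ≤ B0 := by
    have c2 : HasCompactSupport (fun p : ℝ × ℝ => (2 * p.2) * Z p) := cZ.mul_left
    have := sZ.continuous
    obtain ⟨M, hM⟩ := c2.exists_bound_of_continuous (by fun_prop)
    exact ⟨M, hM⟩
  have hB0' : 0 ≤ B0 := (abs_nonneg _).trans (hB0 (0, 0))
  obtain ⟨ψ, sψ, cψ, hψ⟩ := exp_cutoff (B := B0 * T)
  obtain ⟨Y, Q, L, F⟩ := exists_fl sZ cZ sψ cψ t₀
  have hψ' : ∀ t ∈ Ioo t₁ t₂, ∀ x, ψ (Q (t, x)) = Real.exp (Q (t, x)) := by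
    intro t ht x
    refine hψ _ (abs_le.1 ((F.Q_bound hB0 t x).trans (mul_le_mul_of_nonneg_left ?_ hB0')))
    rw [abs_le]
    constructor <;> linarith [ht.1, ht.2]
  -- the range of Y
  have Yle : ∀ t, ∀ x ∈ Icc (-1 : ℝ) 1, Y (t, x) ∈ Icc (-1 : ℝ) 1 := by
    intro t x hx
    have h3 := F.one_sub t x
    have h4 : 0 ≤ 1 - x ^ 2 := by nlinarith [hx.1, hx.2]
    have h5 : 0 ≤ 1 - Y (t, x) ^ 2 := by rw [h3]; positivity
    exact ⟨by nlinarith, by nlinarith⟩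
  have Ylt : ∀ t, ∀ x ∈ Ioo (-1 : ℝ) 1, 0 < 1 - Y (t, x) ^ 2 := by
    intro t x hx
    rw [F.one_sub t x]
    have h4 : 0 < 1 - x ^ 2 := by nlinarith [hx.1, hx.2]
    positivity
  have Ylt' : ∀ t, ∀ x ∈ Ioo (-1 : ℝ) 1, Y (t, x) ∈ Ioo (-1 : ℝ) 1 := by
    intro t x hx
    have h5 := Ylt t x hx
    exact ⟨by nlinarith, by nlinarith⟩
  have V0 : ∀ p ∈ Ω, 0 < V p := fun p hp => vpos p.1 hp.1 p.2 hp.2
  -- the set O
  set O : Set (ℝ × ℝ) := {p | ((p.1, Y p) : ℝ × ℝ) ∈ Ω} with hO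
  have cY := F.sY.continuous
  have oO : IsOpen O := oΩ.preimage (by fun_prop)
  have subO : Ioo t₁ t₂ ×ˢ Icc (-1 : ℝ) 1 ⊆ O := fun p hp =>
    memΩ p.1 ⟨hp.1.1.le, hp.1.2.le⟩ (Y p) (Yle p.1 p.2 hp.2)
  have sVO : ContDiffOn ℝ ∞ (fun p : ℝ × ℝ => V (p.1, Y p)) O :=
    sv.comp (t := Ω) ((contDiff_fst.prodMk F.sY).contDiffOn) (fun p hp => hp)
  have hVO : ∀ p ∈ O, V (p.1, Y p) ^ 2 ≠ 0 := fun p hp => pow_ne_zero 2 (V0 _ hp).ne'
  set α : ℝ → ℝ → ℝ := fun t x => Real.exp (Q (t, x)) / V (t, Y (t, x)) ^ 2 with hα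
  set β : ℝ → ℝ → ℝ := fun t x => Real.exp (Q (t, x)) / V (t, Y (t, x)) ^ 2 *
    (2 * L (t, x) * ec (2 * (1 - x ^ 2) * L (t, x))) with hβ
  have sα : ContDiffOn ℝ ∞ (fun p : ℝ × ℝ => α p.1 p.2) O :=
    (F.sQ.exp.contDiffOn).div (sVO.pow 2) hVO
  have sβ : ContDiffOn ℝ ∞ (fun p : ℝ × ℝ => β p.1 p.2) O := by
    refine sα.mul (ContDiff.contDiffOn ?_)
    have hL := F.sL
    have := contDiff_ec.comp (f := fun p : ℝ × ℝ => 2 * (1 - p.2 ^ 2) * L p) (by fun_prop)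
    exact (contDiff_const.mul hL).mul this
  have hsum : ∀ t x, α t x + β t x * (1 - x ^ 2) =
      Real.exp (Q (t, x) + 2 * (1 - x ^ 2) * L (t, x)) / V (t, Y (t, x)) ^ 2 := by
    intro t x
    have h3 := ec_mul (2 * (1 - x ^ 2) * L (t, x))
    simp only [hα, hβ]
    rw [Real.exp_add]
    linear_combination Real.exp (Q (t, x)) / V (t, Y (t, x)) ^ 2 * h3
  have hpos : ∀ t ∈ Ioo t₁ t₂, PosAB (α t) (β t) := by
    intro t ht x hx
    have h3 := V0 _ (subO (show ((t, x) : ℝ × ℝ) ∈ _ from ⟨ht, hx⟩))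
    simp only at h3
    rw [hsum]
    simp only [hα]
    constructor <;> positivity
  -- F and E
  have hF : ∀ t x, Ff (α t) x = (1 - Y (t, x) ^ 2) / V (t, Y (t, x)) ^ 2 := by
    intro t x
    simp only [Ff, hα]
    rw [F.one_sub]
    ring
  have hM : ∀ t ∈ Ioo t₁ t₂, ∀ x, fderiv ℝ Y (t, x) (0, 1) =
      Real.exp (Q (t, x) + (1 - x ^ 2) * L (t, x)) := fun t ht x =>
    F.Yx_eq ⟨h10, h02⟩ ht (fun s hs => hψ' s hs x)
  have hE : ∀ t ∈ Ioo t₁ t₂, ∀ x ∈ Ioo (-1 : ℝ) 1, Ef (α t) (β t) x =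
      fderiv ℝ Y (t, x) (0, 1) ^ 2 / (V (t, Y (t, x)) ^ 2 * (1 - Y (t, x) ^ 2)) := by
    intro t ht x hx
    have hx2 : 0 < 1 - x ^ 2 := by nlinarith [hx.1, hx.2]
    have h3 : Ef (α t) (β t) x = (α t x + β t x * (1 - x ^ 2)) / (1 - x ^ 2) := by
      simp only [Ef]
      field_simp
    have h4 : V (t, Y (t, x)) ≠ 0 := (V0 _ (subO (show ((t, x) : ℝ × ℝ) ∈ _ from
      ⟨ht, ⟨hx.1.le, hx.2.le⟩⟩))).ne'
    rw [h3, hsum, hM t ht x, F.one_sub]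
    have h5 : Real.exp (Q (t, x) + (1 - x ^ 2) * L (t, x)) ^ 2 =
        Real.exp (Q (t, x) + 2 * (1 - x ^ 2) * L (t, x)) * Real.exp (Q (t, x)) := by
      rw [← Real.exp_nat_mul, ← Real.exp_add]
      congr 1
      push_cast
      ring
    rw [h5]
    have h6 := (Real.exp_pos (Q (t, x))).ne'
    field_simp
  -- main computation
  have main : ∀ t ∈ Ioo t₁ t₂, ∀ x ∈ Ioo (-1 : ℝ) 1,
      HasDerivAt (fun s => Ef (α s) (β s) x)
        (-4 * Krf (Ef (α t) (β t)) (Ff (α t)) x * Ef (α t) (β t) x) t ∧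
      HasDerivAt (fun s => Ff (α s) x)
        (-2 * (Krf (Ef (α t) (β t)) (Ff (α t)) x + Kff (Ef (α t) (β t)) (Ff (α t)) x)
          * Ff (α t) x) t := by
    intro t ht x hx
    set m : ℝ × ℝ → ℝ := fun p => fderiv ℝ Y p (0, 1) with hm
    have sm : ContDiff ℝ ∞ m := (F.sY.fderiv_right (by simp)).clm_apply contDiff_const
    have dY : ∀ p, DifferentiableAt ℝ Y p := F.sY.differentiable (by simp)
    have dm : ∀ p, DifferentiableAt ℝ m p := sm.differentiable (by simp)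
    have ht0 : t ∈ Ioo 0 T := ⟨by linarith [ht.1], by linarith [ht.2]⟩
    have inΩ : ∀ z ∈ Ioo (-1 : ℝ) 1, ((t, Y (t, z)) : ℝ × ℝ) ∈ Ω := fun z hz =>
      subO (show ((t, z) : ℝ × ℝ) ∈ _ from ⟨ht, ⟨hz.1.le, hz.2.le⟩⟩)
    have dV : ∀ p ∈ Ω, DifferentiableAt ℝ V p := fun p hp =>
      (sv.contDiffAt (oΩ.mem_nhds hp)).differentiableAt (by simp)
    have dP : ∀ p ∈ Ω, DifferentiableAt ℝ P p := fun p hp =>
      (sP.contDiffAt (oΩ.mem_nhds hp)).differentiableAt (by simp)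
    have dJ : ∀ p ∈ Ω, DifferentiableAt ℝ J p := fun p hp =>
      (sI.contDiffAt (oΩ.mem_nhds hp)).differentiableAt (by simp)
    -- x-derivatives
    obtain ⟨F1, F2, E1⟩ := xder (y := fun z => Y (t, z)) (V := fun z => V (t, Y (t, z)))
      (P := fun z => P (t, Y (t, z))) (M := fun z => m (t, z)) (a := -1) (b := 1) (x := x)
      (m1 := fun z => fderiv ℝ m (t, z) (0, 1)) (w := fun z => fderiv ℝ P (t, Y (t, z)) (0, 1)) hx
      (fun z _ => hasDerivAt_snd (dY (t, z)))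
      (fun z _ => hasDerivAt_snd (dm (t, z)))
      (fun z hz => comp_snd' (dV _ (inΩ z hz)) (hasDerivAt_snd (dY (t, z))))
      (fun z hz => comp_snd' (dP _ (inΩ z hz)) (hasDerivAt_snd (dY (t, z))))
      (fun z hz => (V0 _ (inΩ z hz)).ne')
      (fun z hz => (Ylt t z hz).ne')
      (F := Ff (α t)) (E := Ef (α t) (β t))
      (fun z _ => hF t z) (fun z hz => hE t ht z hz)
    have F0 := hF t x
    have E0 := hE t ht x hx
    have hVx := V0 _ (inΩ x hx)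
    have hux := Ylt t x hx
    have hmx : 0 < m (t, x) := by simp only [hm]; rw [hM t ht x]; positivity
    have hYx := Ylt' t x hx
    -- derivatives of v and I in the space variable
    have ev : ∀ᶠ z in 𝓝 (Y (t, x)), ((t, z) : ℝ × ℝ) ∈ Ω := by
      have : Continuous fun z : ℝ => ((t, z) : ℝ × ℝ) := by fun_prop
      exact this.continuousAt.eventually (oΩ.mem_nhds (inΩ x hx))
    have pv : deriv (v t) (Y (t, x)) = P (t, Y (t, x)) :=
      (hasDerivAt_snd (dV _ (inΩ x hx))).deriv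
    have pv' : deriv (v t) =ᶠ[𝓝 (Y (t, x))] fun z => P (t, z) := by
      filter_upwards [ev] with z hz
      exact (hasDerivAt_snd (dV _ hz)).deriv
    have wv : deriv (deriv (v t)) (Y (t, x)) = fderiv ℝ P (t, Y (t, x)) (0, 1) := by
      rw [((hasDerivAt_snd (dP _ (inΩ x hx))).congr_of_eventuallyEq pv').deriv]
    have iv : fderiv ℝ J (t, Y (t, x)) (0, 1) = P (t, Y (t, x)) ^ 2 := by
      rw [← pv, ← hI t ht0 _ hYx]
      exact (hasDerivAt_snd (dJ _ (inΩ x hx))).deriv.symm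
    -- Z
    have eZ : Z =ᶠ[𝓝 (t, Y (t, x))] ζ := hZ _ ⟨⟨ht.1.le, ht.2.le⟩, ⟨hYx.1.le, hYx.2.le⟩⟩
    have vZ : Z (t, Y (t, x)) = -(V (t, Y (t, x)) * P (t, Y (t, x))) + J (t, Y (t, x)) :=
      eZ.self_of_nhds
    have vZ' : fderiv ℝ Z (t, Y (t, x)) (0, 1) =
        -(V (t, Y (t, x)) * fderiv ℝ P (t, Y (t, x)) (0, 1)) := by
      rw [eZ.fderiv_eq]
      have e1 := ((hasDerivAt_snd (dV _ (inΩ x hx))).mul (hasDerivAt_snd (dP _ (inΩ x hx)))).neg.add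
        (hasDerivAt_snd (dJ _ (inΩ x hx)))
      have e2 := hasDerivAt_snd (Y := ζ) (((sζ.contDiffAt (oΩ.mem_nhds (inΩ x hx)))).differentiableAt
        (by simp))
      have e3 := e2.unique e1
      rw [e3, iv]
      simp only [hPdef]
      ring
    -- time derivatives
    have tY := F.dY t x
    rw [vZ] at tY
    have tV := pairs (f := V) (dV _ (inΩ x hx)) tY
    have pdeV : fderiv ℝ V (t, Y (t, x)) (1, 0) =
        V (t, Y (t, x)) ^ 2 * ((1 - Y (t, x) ^ 2) * fderiv ℝ P (t, Y (t, x)) (0, 1)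
          - 3 * Y (t, x) * P (t, Y (t, x)))
        - V (t, Y (t, x)) * ((1 - Y (t, x) ^ 2) * P (t, Y (t, x)) ^ 2) + 2 * V (t, Y (t, x)) ^ 3
        - J (t, Y (t, x)) * (Y (t, x) * V (t, Y (t, x)) + (1 - Y (t, x) ^ 2) * P (t, Y (t, x))) := by
      have e1 := hpde t ht0 (Y (t, x)) hYx
      rw [wv, pv] at e1
      exact (hasDerivAt_fst (dV _ (inΩ x hx))).unique e1
    have tM := F.dYx t x
    rw [vZ, vZ'] at tM
    have hI1 := idA (Y (t, x)) (V (t, Y (t, x))) (P (t, Y (t, x))) (fderiv ℝ P (t, Y (t, x)) (0, 1))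
      (J (t, Y (t, x))) (m (t, x)) (fderiv ℝ m (t, x) (0, 1)) hVx.ne' hux.ne' hmx.ne'
      _ _ _ _ _ _ _ (Krf (Ef (α t) (β t)) (Ff (α t)) x) (Kff (Ef (α t) (β t)) (Ff (α t)) x)
      pdeV rfl F0 F1 F2 E0 E1 rfl rfl
    have hI2 := idB (Y (t, x)) (V (t, Y (t, x))) (P (t, Y (t, x))) (fderiv ℝ P (t, Y (t, x)) (0, 1))
      (J (t, Y (t, x))) (m (t, x)) (fderiv ℝ m (t, x) (0, 1)) hVx.ne' hux.ne' hmx.ne'
      _ _ _ _ _ _ _ (Krf (Ef (α t) (β t)) (Ff (α t)) x)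
      pdeV rfl F0 F1 F2 E0 E1 rfl
    constructor
    · have e1 : (fun s => Ef (α s) (β s) x) =ᶠ[𝓝 t] fun s =>
          m (s, x) ^ 2 / (V (s, Y (s, x)) ^ 2 * (1 - Y (s, x) ^ 2)) := by
        filter_upwards [isOpen_Ioo.mem_nhds ht] with s hs using hE s hs x hx
      have e2 : HasDerivAt (fun s => m (s, x) ^ 2 / (V (s, Y (s, x)) ^ 2 * (1 - Y (s, x) ^ 2))) _ t :=
        (tM.pow 2).div ((tV.pow 2).mul ((tY.pow 2).const_sub 1))
          (mul_ne_zero (pow_ne_zero 2 hVx.ne') hux.ne')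
      refine (e2.congr_of_eventuallyEq e1).congr_deriv ?_
      rw [← hI2]
      simp only [Pi.pow_apply]
      have g1 := hVx.ne'
      have g2 := hux.ne'
      have g3 : P (t, Y (t, x)) = fderiv ℝ V (t, Y (t, x)) (0, 1) := rfl
      have g4 : m (t, x) = fderiv ℝ Y (t, x) (0, 1) := rfl
      rw [← g3, ← g4]
      field_simp
      ring
    · have e1 : (fun s => Ff (α s) x) = fun s => (1 - Y (s, x) ^ 2) / V (s, Y (s, x)) ^ 2 :=
        funext fun s => hF s x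
      rw [e1]
      have e2 : HasDerivAt (fun s => (1 - Y (s, x) ^ 2) / V (s, Y (s, x)) ^ 2) _ t :=
        ((tY.pow 2).const_sub 1).div (tV.pow 2) (pow_ne_zero 2 hVx.ne')
      refine e2.congr_deriv ?_
      rw [← hI1]
      simp only [Pi.pow_apply]
      have g1 := hVx.ne'
      have g3 : P (t, Y (t, x)) = fderiv ℝ V (t, Y (t, x)) (0, 1) := rfl
      rw [← g3]
      field_simp
      ring
  refine ⟨α, β, O, oO, subO, sα, sβ, hpos, ?_, fun t ht x hx => (main t ht x hx).1,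
    fun t ht x hx => (main t ht x hx).2⟩
  intro x _
  simp only [hα, hβ, F.Q0, F.L0, F.Y0, Real.exp_zero]
  constructor
  · simp [hVdef]
  · simp

end Pool.Agent.N99.RF3
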